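import Pool.Agent.helper84.TP.SpecA

set_option autoImplicit false

namespace Pool.Agent.TP

open Function Turing Turing.PartrecToTM2 Relation

private theorem SIM_num (l : List Γ') : (num l : ℤ) = dg l.head? + 5 * num l.tail := by
  cases l <;> simp [num, dg]

private def SIM_e (S : K' → List Γ') : Fin 5 → ℤ :=
  ![0, (num (S K'.main) : ℕ), (num (S K'.rev) : ℕ), (num (S K'.aux) : ℕ), (num (S K'.stack) : ℕ)]

theorem SIM : SIM_stmt := by
  intro ν B q v S C' h
  have h1 := SIM_num (S K'.main)
  have h2 := SIM_num (S K'.rev)
  have h3 := SIM_num (S K'.aux)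
  have h4 := SIM_num (S K'.stack)
  cases q with
  | push k f q =>
    simp only [mic, Option.some.injEq] at h
    subst h
    refine ⟨none, SIM_e S, ?_, ?_⟩
    · funext j
      cases k <;> fin_cases j <;>
        simp [enc, Ins.l, insOf, sop, nx, kc, SIM_e]
    · funext j
      cases k <;> fin_cases j <;>
        simp [enc, Ins.r, insOf, sop, nx, kc, SIM_e, num, Function.update_apply] <;> omega
  | peek k f q =>
    simp only [mic, Option.some.injEq] at h
    subst h
    refine ⟨(S k).head?, Function.update (SIM_e S) (kc k) (num (S k).tail), ?_, ?_⟩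
    · funext j
      cases k <;> fin_cases j <;>
        simp [enc, Ins.l, insOf, sop, nx, kc, SIM_e, Function.update_apply] <;> omega
    · funext j
      cases k <;> fin_cases j <;>
        simp [enc, Ins.r, insOf, sop, nx, kc, SIM_e, Function.update_apply] <;> omega
  | pop k f q =>
    simp only [mic, Option.some.injEq] at h
    subst h
    refine ⟨(S k).head?, Function.update (SIM_e S) (kc k) (num (S k).tail), ?_, ?_⟩
    · funext j
      cases k <;> fin_cases j <;>
        simp [enc, Ins.l, insOf, sop, nx, kc, SIM_e, Function.update_apply] <;> omega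
    · funext j
      cases k <;> fin_cases j <;>
        simp [enc, Ins.r, insOf, sop, nx, kc, SIM_e, Function.update_apply] <;> omega
  | load a q =>
    simp only [mic, Option.some.injEq] at h
    subst h
    refine ⟨none, SIM_e S, ?_, ?_⟩ <;>
    · funext j
      fin_cases j <;> simp [enc, Ins.l, Ins.r, insOf, sop, nx, SIM_e]
  | branch f q₁ q₂ =>
    simp only [mic, Option.some.injEq] at h
    subst h
    refine ⟨none, SIM_e S, ?_, ?_⟩ <;>
    · funext j
      fin_cases j <;> simp [enc, Ins.l, Ins.r, insOf, sop, nx, SIM_e]
  | goto l =>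
    simp only [mic, Option.some.injEq] at h
    subst h
    refine ⟨none, SIM_e S, ?_, ?_⟩ <;>
    · funext j
      fin_cases j <;> simp [enc, Ins.l, Ins.r, insOf, sop, nx, SIM_e]
  | halt =>
    simp [mic] at h

end Pool.Agent.TP
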